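import Mathlib

set_option autoImplicit false
open Filter Topology

namespace Pool.Agent.Results.MP_80cb54_al.AllValues

/-- the rooted tree of words over A: the children of v are a :: v, the root is [] -/
def T (A : Type) : SimpleGraph (List A) := SimpleGraph.fromRel fun v w => ∃ a, w = a :: v

/-- level k -/
abbrev L (A : Type) (k : ℕ) : Type := {v : List A // v.length = k}

variable {A : Type}

/-- the restrictions of the elements of H to level k -/
def res (H : Subgroup (T A ≃g T A)) (k : ℕ) : Set (L A k → List A) :=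
  {f | ∃ g ∈ H, ∀ v, f v = g v.1}

/-- proportion of those restrictions that fix a vertex -/
noncomputable def p (H : Subgroup (T A ≃g T A)) (k : ℕ) : ℝ :=
  ({f ∈ res H k | ∃ v, f v = v.1}.ncard : ℝ) / (res H k).ncard

variable [AddCommGroup A] (D : ℕ → Prop)

def al : List A → Prop
  | [] => True
  | a :: v => al v ∧ (Even v.length → D (v.length / 2) → a = 0)

open Classical in
noncomputable def sh (ε : ℕ → A) : List A → A
  | [] => 0
  | c :: w => if Even w.length ∧ al D w ∧ (D (w.length / 2) → c ≠ 0) then ε (w.length / 2) else 0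

noncomputable def act (ε : ℕ → A) : List A → List A
  | [] => []
  | a :: v => (a + sh D ε v) :: act ε v

@[simp] lemma act_length (ε : ℕ → A) : ∀ v, (act D ε v).length = v.length
  | [] => rfl
  | _ :: v => by simp [act, act_length ε v]

lemma sh_even (ε : ℕ → A) : ∀ v : List A, Even v.length → sh D ε v = 0
  | [], _ => rfl
  | _ :: w, h => if_neg fun h' => by simp [Nat.even_add_one, h'.1] at h

lemma al_act (ε : ℕ → A) : ∀ v, al D (act D ε v) ↔ al D v
  | [] => Iff.rfl
  | a :: v => by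
    simp only [act, al, al_act ε v, act_length]
    exact and_congr_right fun _ => forall_congr' fun h => by rw [sh_even D ε v h, add_zero]

lemma sh_act (ε δ : ℕ → A) : ∀ v, sh D ε (act D δ v) = sh D ε v
  | [] => rfl
  | c :: w => by
    rw [act, sh, sh, act_length, al_act]
    by_cases h : Even w.length
    · rw [sh_even D δ w h, add_zero]
    · simp [h]

lemma sh_add (ε δ : ℕ → A) : ∀ v, sh D (ε + δ) v = sh D ε v + sh D δ v
  | [] => by simp [sh]
  | c :: w => by simp only [sh]; split_ifs <;> simp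

lemma act_act (ε δ : ℕ → A) : ∀ v, act D ε (act D δ v) = act D (ε + δ) v
  | [] => rfl
  | _ :: v => by
    rw [act, act, act, act_act ε δ v, sh_act, sh_add, add_assoc, add_comm (sh D δ v)]

lemma sh_zero (v : List A) : sh D 0 v = 0 := by cases v <;> simp [sh]

lemma act_zero : ∀ v : List A, act D 0 v = v
  | [] => rfl
  | _ :: v => by rw [act, act_zero v, sh_zero, add_zero]

lemma act_adj (ε : ℕ → A) {v w : List A} (h : (T A).Adj v w) :
    (T A).Adj (act D ε v) (act D ε w) := by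
  simp only [T, SimpleGraph.fromRel_adj] at h ⊢
  refine ⟨fun e => h.1 ?_, ?_⟩
  · simpa [act_act, act_zero] using congrArg (act D (-ε)) e
  · rcases h.2 with ⟨a, rfl⟩ | ⟨a, rfl⟩
    exacts [.inl ⟨_, rfl⟩, .inr ⟨_, rfl⟩]

noncomputable def aut (ε : ℕ → A) : T A ≃g T A where
  toFun := act D ε
  invFun := act D (-ε)
  left_inv v := by simp [act_act, act_zero]
  right_inv v := by simp [act_act, act_zero]
  map_rel_iff' := fun {v w} => ⟨fun h => by
    simpa [act_act, act_zero] using act_adj D (-ε) h, act_adj D ε⟩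

noncomputable def G : Subgroup (T A ≃g T A) where
  carrier := Set.range (aut D)
  one_mem' := ⟨0, RelIso.ext (act_zero D)⟩
  mul_mem' := by
    rintro _ _ ⟨ε, rfl⟩ ⟨δ, rfl⟩
    exact ⟨_, RelIso.ext fun v => (act_act D ε δ v).symm⟩
  inv_mem' := by
    rintro _ ⟨ε, rfl⟩
    exact ⟨-ε, eq_inv_of_mul_eq_one_left (RelIso.ext fun v => (aut D ε).left_inv v)⟩

lemma act_congr {ε δ : ℕ → A} : ∀ v : List A, (∀ i < v.length / 2, ε i = δ i) →
    act D ε v = act D δ v
  | [], _ => rfl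
  | [_], _ => rfl
  | a :: c :: w, h => by
    rw [act, act_congr (c :: w) fun i hi => h i (by simp at hi ⊢; omega), act.eq_2 D δ a, sh, sh,
      h _ (by simp; omega)]

lemma act_tail {ε δ : ℕ → A} (v : List A) : ∀ u : List A, act D ε (u ++ v) = act D δ (u ++ v) →
    act D ε v = act D δ v
  | [], h => h
  | _ :: u, h => act_tail v u (List.cons.inj h).2

lemma al_rep : ∀ n, al D (List.replicate n (0 : A))
  | 0 => trivial
  | n + 1 => ⟨al_rep n, fun _ _ => rfl⟩

def Al (ε : ℕ → A) : ℕ → Prop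
  | 0 => True
  | k + 1 => Al ε k ∧ (¬ D k → ε k = 0)

def Su (ε : ℕ → A) : ℕ → Prop
  | 0 => False
  | k + 1 => Su ε k ∨ (Al D ε k ∧ D k ∧ ε k = 0)

lemma fix2 [Nontrivial A] (ε : ℕ → A) : ∀ k,
    ((∃ v : List A, v.length = 2 * k ∧ al D v ∧ act D ε v = v) ↔ Al D ε k) ∧
    ((∃ v : List A, v.length = 2 * k ∧ ¬ al D v ∧ act D ε v = v) ↔ Su D ε k)
  | 0 => ⟨⟨fun _ => trivial, fun _ => ⟨[], rfl, trivial, rfl⟩⟩, ⟨fun ⟨v, h, h', _⟩ => h' (by
      rw [List.length_eq_zero_iff.1 h]; trivial), False.elim⟩⟩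
  | k + 1 => by
    obtain ⟨h1, h2⟩ := fix2 ε k
    obtain ⟨o, ho⟩ := exists_ne (0 : A)
    have e : ∀ (r c : A) (w : List A), w.length = 2 * k →
        (al D (r :: c :: w) ↔ al D w ∧ (D k → c = 0)) ∧ (act D ε (r :: c :: w) = r :: c :: w ↔
          act D ε w = w ∧ (al D w → (D k → c ≠ 0) → ε k = 0)) := fun r c w h => by
      have := sh_even D ε w (by simp [h])
      rw [act, act, sh, this]
      simp [al, h, and_comm]
    have d : ∀ v : List A, v.length = 2 * (k + 1) → ∃ r c w, v = r :: c :: w ∧ w.length = 2 * k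
      | r :: c :: w, h => ⟨r, c, w, rfl, by simp at h; omega⟩
      | [], h => by simp at h
      | [_], h => by simp at h; omega
    rw [Al, Su, ← h1, ← h2]
    refine ⟨⟨fun ⟨v, hv, a, f⟩ => ?_, fun ⟨⟨w, hw, a, f⟩, h⟩ => ⟨0 :: 0 :: w, by simp; omega,
      (e _ _ _ hw).1.2 ⟨a, fun _ => rfl⟩, (e _ _ _ hw).2.2 ⟨f, fun _ h' => h fun hd => h' hd rfl⟩⟩⟩,
      ⟨fun ⟨v, hv, a, f⟩ => ?_, ?_⟩⟩
    · obtain ⟨r, c, w, rfl, hw⟩ := d v hv
      rw [(e _ _ _ hw).1] at a
      rw [(e _ _ _ hw).2] at f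
      exact ⟨⟨w, hw, a.1, f.1⟩, fun hd => f.2 a.1 fun h => absurd h hd⟩
    · obtain ⟨r, c, w, rfl, hw⟩ := d v hv
      rw [(e _ _ _ hw).1] at a
      rw [(e _ _ _ hw).2] at f
      by_cases hw' : al D w
      · have : D k ∧ c ≠ 0 := by tauto
        exact .inr ⟨⟨w, hw, hw', f.1⟩, this.1, f.2 hw' fun _ => this.2⟩
      · exact .inl ⟨w, hw, hw', f.1⟩
    · rintro (⟨w, hw, a, f⟩ | ⟨⟨w, hw, a, f⟩, hd, h⟩)
      · exact ⟨0 :: 0 :: w, by simp; omega, fun h => a ((e _ _ _ hw).1.1 h).1,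
          (e _ _ _ hw).2.2 ⟨f, fun h => absurd h a⟩⟩
      · exact ⟨0 :: o :: w, by simp; omega, fun h => ho (((e _ _ _ hw).1.1 h).2 hd),
          (e _ _ _ hw).2.2 ⟨f, fun _ _ => h⟩⟩

lemma fixn [Nontrivial A] (ε : ℕ → A) (n : ℕ) :
    (∃ v : L A n, act D ε v.1 = v.1) ↔ Al D ε (n / 2) ∨ Su D ε (n / 2) := by
  rw [← (fix2 D ε _).1, ← (fix2 D ε _).2, ← exists_or]
  simp only [← and_or_left, ← or_and_right, em, true_and]
  rcases Nat.even_or_odd' n with ⟨k, rfl | rfl⟩
  · simp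
  · rw [show (2 * k + 1) / 2 = k by omega]
    constructor
    · rintro ⟨⟨_ | ⟨c, w⟩, h⟩, f⟩
      · simp at h
      · exact ⟨w, by simpa using h, (List.cons.inj f).2⟩
    · rintro ⟨w, h, f⟩
      exact ⟨⟨0 :: w, by simp [h]⟩, by simp [act, f, sh_even D ε w (by simp [h])]⟩

lemma loc {ε δ : ℕ → A} : ∀ k, (∀ i < k, ε i = δ i) →
    (Al D ε k ↔ Al D δ k) ∧ (Su D ε k ↔ Su D δ k)
  | 0, _ => ⟨Iff.rfl, Iff.rfl⟩
  | k + 1, h => by
    obtain ⟨a, b⟩ := loc k fun i hi => h i (by omega)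
    simp [Al, Su, a, b, h k (by omega)]

def ex {k : ℕ} (x : Fin k → A) (i : ℕ) : A := if h : i < k then x ⟨i, h⟩ else 0

open Classical in
lemma pG [Nontrivial A] [Fintype A] (n : ℕ) : p (G (A := A) D) n =
    (∑ x : Fin (n / 2) → A, if Al D (ex x) (n / 2) ∨ Su D (ex x) (n / 2) then (1 : ℝ) else 0) /
      Fintype.card A ^ (n / 2) := by
  let f : (Fin (n / 2) → A) → L A n → List A := fun x v => act D (ex x) v.1
  have hf : Function.Injective f := fun x y h => funext fun i => by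
    obtain ⟨o, ho⟩ := exists_ne (0 : A)
    have := act_tail D (0 :: o :: List.replicate (2 * i) 0) (List.replicate (n - (2 * i + 2)) 0)
      (congrFun h ⟨_, by have := i.2; simp; omega⟩)
    simpa [act, sh, al_rep, ho, ex] using (List.cons.inj this).1
  have h1 : res (G D) n = Set.range f := by
    ext g
    refine ⟨?_, fun ⟨x, h⟩ => ⟨aut D (ex x), ⟨_, rfl⟩, fun v => h ▸ rfl⟩⟩
    rintro ⟨_, ⟨ε, rfl⟩, h⟩
    exact ⟨fun i => ε i, funext fun v => (act_congr D v.1 fun i hi => by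
      simp [ex, v.2 ▸ hi]).trans (h v).symm⟩
  have h2 : {g ∈ Set.range f | ∃ v, g v = v.1} =
      f '' ↑(Finset.univ.filter fun x : Fin (n / 2) → A => Al D (ex x) (n / 2) ∨ Su D (ex x) (n / 2)) := by
    ext g
    simp only [Set.mem_ofPred_eq, Set.mem_range, Set.mem_image, Finset.coe_filter, Finset.mem_univ,
      true_and, ← fixn]
    exact ⟨fun ⟨⟨x, h⟩, h'⟩ => ⟨x, by subst h; exact h', h⟩,
      fun ⟨x, h', h⟩ => ⟨⟨x, h⟩, by subst h; exact h'⟩⟩
  rw [p, h1, h2, Set.ncard_image_of_injective _ hf, Set.ncard_coe_finset,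
    Set.ncard_range_of_injective hf]
  simp

lemma sum_succ [Fintype A] (k : ℕ) (φ : (ℕ → A) → ℝ) : ∑ x : Fin (k + 1) → A, φ (ex x) =
    ∑ x : Fin k → A, ∑ a, φ (Function.update (ex x) k a) := by
  rw [← (Fin.snocEquiv fun _ => A).sum_comp, Fintype.sum_prod_type, Finset.sum_comm]
  refine Finset.sum_congr rfl fun x _ => Finset.sum_congr rfl fun a _ => congrArg φ ?_
  funext i
  rcases lt_trichotomy i k with h | rfl | h
  · simp [ex, h, h.ne, Nat.lt_succ_of_lt h, Fin.snoc]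
  · simp [ex, Fin.snoc]
  · simp [ex, h.ne', h.not_gt, show ¬ i < k + 1 by omega]

theorem result (d : ℕ) (hd : 2 ≤ d) (α : ℝ) (hα : α ∈ Set.Icc (0 : ℝ) 1) :
    ∃ G : Subgroup (T (ZMod d) ≃g T (ZMod d)), (∀ g ∈ G, g [] = []) ∧
      Tendsto (p G) atTop (𝓝 α) := by
  classical
  have : NeZero d := ⟨by omega⟩
  have : Fact (1 < d) := ⟨hd⟩
  have hd' : (2 : ℝ) ≤ d := by exact_mod_cast hd
  let β : ℕ → ℝ := fun k => Nat.rec α (fun _ b => if 1 ≤ d * b then (d * b - 1) / (d - 1) else d * b) k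
  have hβ : ∀ k, β (k + 1) = if 1 ≤ d * β k then (d * β k - 1) / (d - 1) else d * β k := fun _ => rfl
  let D : ℕ → Prop := fun k => 1 ≤ d * β k
  refine ⟨G D, by rintro _ ⟨ε, rfl⟩; rfl, ?_⟩
  let N : ℕ → ℝ := fun k => ∑ x : Fin k → ZMod d, if Al D (ex x) k ∧ ¬ Su D (ex x) k then 1 else 0
  let M : ℕ → ℝ := fun k => ∑ x : Fin k → ZMod d, if Su D (ex x) k then 1 else 0
  have up : ∀ k (ε : ℕ → ZMod d) a, (Al D (Function.update ε k a) k ↔ Al D ε k) ∧
      (Su D (Function.update ε k a) k ↔ Su D ε k) := fun k ε a => loc D k fun i hi => by simp [hi.ne]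
  have s1 : (∑ x : ZMod d, if x = 0 then (0 : ℝ) else 1) = d - 1 := by
    rw [Finset.sum_congr rfl (g := fun x => 1 - if x = 0 then (1 : ℝ) else 0)
      fun x _ => by split_ifs <;> simp]
    simp
  have hN : ∀ k, N (k + 1) = N k * if D k then (d : ℝ) - 1 else 1 := fun k => by
    simp only [N]
    rw [sum_succ k fun ε => if Al D ε (k + 1) ∧ ¬ Su D ε (k + 1) then 1 else 0, Finset.sum_mul]
    refine Finset.sum_congr rfl fun x _ => ?_
    by_cases h1 : Al D (ex x) k <;> by_cases h2 : Su D (ex x) k <;> by_cases h3 : D k <;>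
      simp [Al, Su, up, h1, h2, h3, s1]
  have hM : ∀ k, M (k + 1) = d * M k + N k * if D k then 1 else 0 := fun k => by
    simp only [M, N]
    rw [sum_succ k fun ε => if Su D ε (k + 1) then 1 else 0, Finset.sum_mul, Finset.mul_sum,
      ← Finset.sum_add_distrib]
    refine Finset.sum_congr rfl fun x _ => ?_
    by_cases h1 : Al D (ex x) k <;> by_cases h2 : Su D (ex x) k <;> by_cases h3 : D k <;>
      simp [Su, up, h1, h2, h3]
  have inv : ∀ k, α * d ^ k = M k + N k * β k ∧ 0 ≤ β k ∧ β k ≤ 1 ∧ 0 ≤ N k ∧ N k ≤ (d - 1) ^ k := by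
    intro k
    induction k with
    | zero => simp [M, N, Al, Su, β, hα.1, hα.2]
    | succ k ih =>
      obtain ⟨a, b, c, e, f⟩ := ih
      have h1 : (0 : ℝ) < d - 1 := by linarith
      rw [hN, hM, hβ, pow_succ, pow_succ, ← mul_assoc, a]
      by_cases h : D k
      · rw [if_pos h, if_pos h, if_pos h]
        refine ⟨by field_simp; ring, div_nonneg (sub_nonneg.2 h) h1.le,
          (div_le_one h1).2 (by nlinarith), by positivity, by gcongr⟩
      · rw [if_neg h, if_neg h, if_neg h]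
        exact ⟨by ring, by positivity, (not_le.1 h).le, by simpa, by nlinarith⟩
  have hp : ∀ n, p (G (A := ZMod d) D) n = (M (n / 2) + N (n / 2)) / d ^ (n / 2) := fun n => by
    rw [pG, ZMod.card, ← Finset.sum_add_distrib]
    congr 1
    refine Finset.sum_congr rfl fun x _ => ?_
    by_cases h1 : Al D (ex x) (n / 2) <;> by_cases h2 : Su D (ex x) (n / 2) <;> simp [h1, h2]
  have lim : Tendsto (fun n : ℕ => α + ((d - 1) / d : ℝ) ^ (n / 2)) atTop (𝓝 α) := by
    simpa using ((tendsto_pow_atTop_nhds_zero_of_lt_one (r := ((d - 1) / d : ℝ))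
      (div_nonneg (by linarith) (by linarith)) ((div_lt_one (by linarith)).2 (by linarith))).comp
      (Nat.tendsto_div_const_atTop two_ne_zero)).const_add α
  refine tendsto_of_tendsto_of_tendsto_of_le_of_le tendsto_const_nhds lim (fun n => ?_) fun n => ?_
  · obtain ⟨a, b, c, e, f⟩ := inv (n / 2)
    rw [hp, le_div_iff₀ (by positivity), a]
    nlinarith
  · obtain ⟨a, b, c, e, f⟩ := inv (n / 2)
    rw [hp, div_le_iff₀ (by positivity), add_mul, a, div_pow, div_mul_cancel₀ _ (by positivity)]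
    nlinarith

end Pool.Agent.Results.MP_80cb54_al.AllValues
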